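import Pool.Agent.Q137.CG.Prod

/-!
# Chen's theorem with isolation up to `ε log X`

For every `r` there are `t`, `c`, `ε` such that for every admissible set `G ∪ {0}` with `|G| ≤ r` and all elements of absolute value
`≤ ε log X` the lower bound of the right order of magnitude holds for the number of the primes `p` of an interval for which `p - h₀` has at
most two prime factors, `p - g`, `g ∈ G`, have no prime factor `≤ X ^ (1/t)` and EVERY OTHER integer at a distance `≤ ε log X` from `p` has a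
prime factor `≤ X ^ (1/t)`.
-/

set_option autoImplicit false

namespace Pool.Agent.Q137.CG

open Finset Filter
open Pool.Agent.Y840.CT (rho VF GoodF SysF Rough genF VF_low VF_mono)
open Pool.Agent.Q253.Thin (SysS SF upperS)
open Pool.Agent.Y843.HG (V1 V1_bounds V1_pos)

open Classical in
/-- the isolated good primes -/
noncomputable def Iso (t X A B : ℕ) (G : Finset ℤ) (h0 : ℤ) (L : ℝ) : Finset ℕ :=
  (GoodF t X A B (fun _ => G) h0).filter (fun p : ℕ => ∀ s : ℤ, |(s : ℝ)| ≤ L → s ≠ 0 → s ∉ G →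
    ∃ q : ℕ, q.Prime ∧ (q : ℝ) ≤ (X : ℝ) ^ (1 / (t : ℝ)) ∧ (q : ℤ) ∣ s - p)

/-- product of numbers `≥ 1` -/
lemma prod_le_sum_pow (I : Finset ℤ) (hI : I.Nonempty) (a : ℤ → ℝ) (ha : ∀ g, 1 ≤ a g) (k : ℕ) (hk : I.card ≤ k) :
    ∏ g ∈ I, a g ≤ ∑ g ∈ I, a g ^ k := by
  obtain ⟨g, hg, hmax⟩ := exists_max_image I a hI
  have h0 : ∀ g, 0 ≤ a g := fun g => by have := ha g; linarith
  calc ∏ g' ∈ I, a g' ≤ ∏ g' ∈ I, a g := Finset.prod_le_prod (fun g' _ => h0 g') fun g' hg' => hmax g' hg'
    _ = a g ^ I.card := by rw [prod_const]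
    _ ≤ a g ^ k := pow_le_pow_right₀ (ha g) hk
    _ ≤ ∑ g ∈ I, a g ^ k := single_le_sum (f := fun g => a g ^ k) (fun g' _ => pow_nonneg (h0 g') k) hg

/-- the sum over the shifts -/
lemma sum_shift (k : ℕ) {C : ℝ} (hC : ∀ N : ℕ, ∑ m ∈ Icc 1 N, R m ^ k ≤ C * N) (T : Finset ℤ) (g : ℤ) (M : ℕ)
    (hg : |g| ≤ M) (hT : ∀ s ∈ T, |s| ≤ M ∧ s ≠ g) : ∑ s ∈ T, R (s - g).natAbs ^ k ≤ 4 * C * M := by
  classical
  have h1 : ∀ s ∈ T, (s - g).natAbs ∈ Icc 1 (2 * M) := by
    intro s hs
    obtain ⟨h1, h2⟩ := hT s hs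
    rw [mem_Icc]
    rw [abs_le] at h1 hg
    omega
  rw [← sum_fiberwise_of_maps_to h1]
  calc ∑ m ∈ Icc 1 (2 * M), ∑ s ∈ T.filter (fun s => (s - g).natAbs = m), R (s - g).natAbs ^ k
      ≤ ∑ m ∈ Icc 1 (2 * M), 2 * R m ^ k := by
        apply sum_le_sum
        intro m _
        have h2 : ∑ s ∈ T.filter (fun s => (s - g).natAbs = m), R (s - g).natAbs ^ k =
            ∑ s ∈ T.filter (fun s => (s - g).natAbs = m), R m ^ k := by
          apply sum_congr rfl
          intro s hs
          rw [(mem_filter.1 hs).2]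
        rw [h2, sum_const, nsmul_eq_mul]
        have h3 : (T.filter (fun s => (s - g).natAbs = m)).card ≤ 2 := by
          calc (T.filter (fun s => (s - g).natAbs = m)).card ≤ ({g + m, g - m} : Finset ℤ).card := by
                apply card_le_card
                intro s hs
                have := (mem_filter.1 hs).2
                rw [mem_insert, mem_singleton]
                omega
            _ ≤ 2 := card_le_two
        have h4 : 0 ≤ R m ^ k := by
          have := one_le_R m
          positivity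
        apply mul_le_mul_of_nonneg_right _ h4
        exact_mod_cast h3
    _ = 2 * ∑ m ∈ Icc 1 (2 * M), R m ^ k := by rw [mul_sum]
    _ ≤ 2 * (C * (2 * M : ℕ)) := by
        gcongr
        exact hC _
    _ = 4 * C * M := by push_cast; ring

/-- **Chen's theorem with isolation up to `ε log X`.** -/
theorem main (r : ℕ) : ∃ t : ℕ, 1 ≤ t ∧ ∃ c : ℝ, 0 < c ∧ ∃ ε : ℝ, 0 < ε ∧
    (∀ θ : ℝ, 0 < θ → ∃ X₀ : ℕ, ∀ X : ℕ, X₀ ≤ X → ∀ G : Finset ℤ, G.card ≤ r → 0 ∉ G →
      (∀ g ∈ G, |(g : ℝ)| ≤ ε * Real.log X) → (∀ q : ℕ, q.Prime → rho G q < q) → ∀ h0 ∈ G,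
      ∀ A B : ℕ, B ≤ X → θ * X ≤ (B : ℝ) - A →
      c * ((B : ℝ) - A) * VF (fun _ => G) X ≤ ((Iso t X A B G h0 (ε * Real.log X)).card : ℝ)) ∧
    (∀ k : ℕ, ∀ θ η : ℝ, 0 < θ → 0 < η → ∃ D X₀ : ℕ, ∀ X : ℕ, X₀ ≤ X → ∀ G : Finset ℤ, G.card ≤ r → 0 ∉ G →
      (∀ g ∈ G, |(g : ℝ)| ≤ ε * Real.log X) → (∀ q : ℕ, q.Prime → rho G q < q) → ∀ h0 ∈ G,
      ∀ A B : ℕ, B ≤ X → θ * X ≤ (B : ℝ) - A →
      ∀ S : Finset ℕ, S ⊆ Iso t X A B G h0 (ε * Real.log X) →
        η * ((Iso t X A B G h0 (ε * Real.log X)).card : ℝ) ≤ S.card →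
        ∃ a d : ℕ, 1 ≤ d ∧ (d : ℝ) ≤ Real.log X ^ D ∧ ∀ j < k, a + j * d ∈ S) := by
  classical
  obtain ⟨t, ht, c, hc, G1, G2⟩ := genF r
  obtain ⟨C, hC, hup⟩ := upperS (r + 1) t ht
  obtain ⟨cv, Cv, hcv, hCv, hV⟩ := V1_bounds
  obtain ⟨Cm, hCm, hmom⟩ := moment (r + 1)
  have ht0 : (0 : ℝ) < t := by exact_mod_cast ht
  obtain ⟨E, hE⟩ : ∃ E : ℝ, E = C * Cv * (4 * Cm * (r + 1)) := ⟨_, rfl⟩
  have hE0 : 0 < E := by rw [hE]; positivity
  obtain ⟨ε, hε⟩ : ∃ ε : ℝ, ε = c / (2 * E) := ⟨_, rfl⟩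
  have hε0 : 0 < ε := by rw [hε]; positivity
  -- `ε log X ≤ X` and `r + 2 ≤ X ^ (1/t)`
  have ev : ∀ᶠ X : ℕ in atTop, (r : ℝ) + 2 ≤ (X : ℝ) ^ (1 / (t : ℝ)) ∧ ε * Real.log X ≤ X ∧ 2 ≤ X := by
    have e1 : ∀ᶠ X : ℕ in atTop, (r : ℝ) + 2 ≤ (X : ℝ) ^ (1 / (t : ℝ)) :=
      ((tendsto_rpow_atTop (by positivity)).comp tendsto_natCast_atTop_atTop).eventually_ge_atTop _
    have e2 : ∀ᶠ X : ℕ in atTop, ε * Real.log X ≤ X := by
      have h := (Real.isLittleO_log_id_atTop.bound (show 0 < 1 / ε by positivity))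
      have h' := tendsto_natCast_atTop_atTop (R := ℝ) |>.eventually h
      filter_upwards [h', eventually_ge_atTop 1] with X hX hX1
      have h0 : (1 : ℝ) ≤ X := by exact_mod_cast hX1
      have h1 : 0 ≤ Real.log X := Real.log_nonneg h0
      rw [Real.norm_eq_abs, Real.norm_eq_abs, abs_of_nonneg h1, id, abs_of_nonneg (by linarith)] at hX
      calc ε * Real.log X ≤ ε * (1 / ε * X) := by gcongr
        _ = X := by field_simp
    filter_upwards [e1, e2, eventually_ge_atTop 2] with X a b c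
    exact ⟨a, b, c⟩
  obtain ⟨X₁, hX₁⟩ := eventually_atTop.1 ev
  -- the count
  have key : ∀ θ : ℝ, 0 < θ → ∃ X₀ : ℕ, ∀ X : ℕ, X₀ ≤ X → ∀ G : Finset ℤ, G.card ≤ r → 0 ∉ G →
      (∀ g ∈ G, |(g : ℝ)| ≤ ε * Real.log X) → (∀ q : ℕ, q.Prime → rho G q < q) → ∀ h0 ∈ G,
      SysF r X (fun _ => G) h0 ∧ ∀ A B : ℕ, B ≤ X → θ * X ≤ (B : ℝ) - A →
      c / 2 * ((B : ℝ) - A) * VF (fun _ => G) X ≤ ((Iso t X A B G h0 (ε * Real.log X)).card : ℝ) ∧
      ((GoodF t X A B (fun _ => G) h0).card : ℝ) ≤ 2 * ((Iso t X A B G h0 (ε * Real.log X)).card : ℝ) := by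
    intro θ hθ
    obtain ⟨X₂, h2⟩ := G1 θ hθ
    obtain ⟨X₃, h3⟩ := hup θ hθ
    refine ⟨max X₁ (max X₂ X₃), ?_⟩
    intro X hX G hGr hG0 hGL hloc h0 hh0
    obtain ⟨f1, f2, f3⟩ := hX₁ X ((le_max_left _ _).trans hX)
    have g2 : X₂ ≤ X := ((le_max_left _ _).trans (le_max_right _ _)).trans hX
    have g3 : X₃ ≤ X := ((le_max_right _ _).trans (le_max_right _ _)).trans hX
    have hXpos : (0 : ℝ) < X := by exact_mod_cast (by omega : 0 < X)
    have hlX : 0 < Real.log X := Real.log_pos (by exact_mod_cast (by omega : 1 < X))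
    have hsys : SysF r X (fun _ => G) h0 := {
      card := fun q _ => hGr
      ne := fun h => hG0 (h ▸ hh0)
      size := by
        have h1 := (hGL h0 hh0).trans f2
        have h2 : ((|h0| : ℤ) : ℝ) ≤ ((X : ℤ) : ℝ) := by
          push_cast
          exact h1
        exact_mod_cast h2
      mem := fun q _ => hh0
      loc := fun q hq => hloc q hq }
    refine ⟨hsys, ?_⟩
    intro A B hBX hAB
    have hAB0 : 0 < (B : ℝ) - A := lt_of_lt_of_le (by positivity) hAB
    obtain ⟨L, hL⟩ : ∃ L, L = ε * Real.log X := ⟨_, rfl⟩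
    have hL0 : 0 ≤ L := by rw [hL]; positivity
    rw [← hL] at hGL ⊢
    obtain ⟨M, hM⟩ : ∃ M : ℕ, M = ⌊L⌋₊ := ⟨_, rfl⟩
    have hML : (M : ℝ) ≤ L := by
      rw [hM]
      exact Nat.floor_le hL0
    have habs : ∀ s : ℤ, |(s : ℝ)| ≤ L → |s| ≤ M := by
      intro s hs
      have h1 : ((s.natAbs : ℕ) : ℝ) ≤ L := by
        rw [Nat.cast_natAbs]
        push_cast
        exact hs
      have h2 := Nat.le_floor h1
      rw [← hM] at h2
      rw [Int.abs_eq_natAbs]
      exact_mod_cast h2
    obtain ⟨T, hT⟩ : ∃ T : Finset ℤ, T = (Icc (-(M : ℤ)) M).filter (fun s => s ∉ insert 0 G ∧ ∀ q : ℕ, q.Prime → rho (insert s G) q < q) :=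
      ⟨_, rfl⟩
    obtain ⟨V, hV'⟩ : ∃ V, V = VF (fun _ => G) X := ⟨_, rfl⟩
    have hV0 : 0 ≤ V := by
      rw [hV']
      exact (VF_mono (F := fun _ => G) hloc (le_refl X)).2
    rw [← hV']
    have hgood := h2 X g2 (fun _ => G) h0 hsys A B hBX hAB
    rw [← hV'] at hgood
    -- the bad primes
    have hbad : GoodF t X A B (fun _ => G) h0 \ Iso t X A B G h0 L ⊆ T.biUnion (fun s => SF t X A B (fun _ => insert s G)) := by
      intro p hp
      rw [Finset.mem_sdiff] at hp
      obtain ⟨hp1, hp2⟩ := hp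
      have hp3 := hp1
      unfold GoodF at hp3
      rw [mem_filter] at hp3
      obtain ⟨p1, p2, p3, p4, p5⟩ := hp3
      unfold Iso at hp2
      rw [mem_filter] at hp2
      push Not at hp2
      obtain ⟨s, s1, s2, s3, s4⟩ := hp2 hp1
      rw [mem_biUnion]
      refine ⟨s, ?_, ?_⟩
      · rw [hT, mem_filter, mem_Icc]
        have h5 := habs s s1
        rw [abs_le] at h5
        refine ⟨⟨h5.1, h5.2⟩, ?_, ?_⟩
        · rw [mem_insert]
          push Not
          exact ⟨s2, s3⟩
        · intro q hq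
          by_contra hcon
          push Not at hcon
          -- all classes are covered
          have hqr : q ≤ r + 2 := by
            have h6 := rho_le (insert s G) q
            have h7 := card_insert_le s G
            omega
          have hqX : (q : ℝ) ≤ (X : ℝ) ^ (1 / (t : ℝ)) := by
            refine le_trans ?_ f1
            exact_mod_cast hqr
          have hq0 : (0 : ℤ) < q := by exact_mod_cast hq.pos
          have hall : ((insert 0 (insert s G)).image (fun h : ℤ => h % q)) = (range q).image (fun c : ℕ => (c : ℤ)) := by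
            apply eq_of_subset_of_card_le
            · intro z hz
              rw [mem_image] at hz
              obtain ⟨h, _, rfl⟩ := hz
              rw [mem_image]
              have h8 := Int.emod_nonneg h hq0.ne'
              have h9 := Int.emod_lt_of_pos h hq0
              exact ⟨(h % q).toNat, mem_range.2 (by omega), Int.toNat_of_nonneg h8⟩
            · rw [card_image_of_injective _ Nat.cast_injective, card_range]
              exact hcon
          have hpm : ((p : ℤ) % q) ∈ (range q).image (fun c : ℕ => (c : ℤ)) := by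
            rw [mem_image]
            refine ⟨p % q, mem_range.2 (Nat.mod_lt _ hq.pos), by push_cast; rfl⟩
          rw [← hall, mem_image] at hpm
          obtain ⟨h, hh, he⟩ := hpm
          have hd : (q : ℤ) ∣ h - p := (Int.modEq_iff_dvd).1 he.symm
          rw [mem_insert, mem_insert] at hh
          rcases hh with hh | hh | hh
          · rw [hh, zero_sub, dvd_neg] at hd
            have h10 : q ∣ p := by exact_mod_cast hd
            have h11 := (Nat.prime_dvd_prime_iff_eq hq p2).1 h10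
            rw [h11] at hqX
            linarith
          · rw [hh] at hd
            exact s4 q hq hqX hd
          · exact p5 q hq hqX h hh hd
      · unfold SF
        rw [mem_filter]
        refine ⟨p1, p2, p3, ?_⟩
        intro q hq hqX h hh
        rw [mem_insert] at hh
        rcases hh with hh | hh
        · rw [hh]
          exact s4 q hq hqX
        · exact p5 q hq hqX h hh
    have hI1 : ((insert 0 G : Finset ℤ)).card ≤ r + 1 := by
      have := card_insert_le 0 G
      omega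
    have hbadc : ((GoodF t X A B (fun _ => G) h0 \ Iso t X A B G h0 L).card : ℝ) ≤ c / 2 * ((B : ℝ) - A) * V := by
      have h5 : ((GoodF t X A B (fun _ => G) h0 \ Iso t X A B G h0 L).card : ℝ) ≤ ∑ s ∈ T, ((SF t X A B (fun _ => insert s G)).card : ℝ) := by
        have := (card_le_card hbad).trans card_biUnion_le
        exact_mod_cast this
      have h6 : ∀ s ∈ T, ((SF t X A B (fun _ => insert s G)).card : ℝ) ≤
          C * ((B : ℝ) - A) * V * V1 X * ∑ g ∈ insert 0 G, R (s - g).natAbs ^ (r + 1) := by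
        intro s hs
        rw [hT, mem_filter] at hs
        obtain ⟨_, s1, s2⟩ := hs
        have hss : SysS (r + 1) (fun _ => insert s G) := {
          card := fun q _ => by
            have := card_insert_le s G
            omega
          loc := fun q hq => s2 q hq }
        have h7 := h3 X g3 (fun _ => insert s G) hss A B hBX hAB
        have h8 := VF_insert G s X hloc s2 s1
        have h9 := prod_le_sum_pow (insert 0 G) (insert_nonempty _ _) (fun g => R (s - g).natAbs) (fun g => one_le_R _) (r + 1) hI1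
        rw [← hV'] at h8
        have hV1 := (V1_pos X).le
        calc ((SF t X A B (fun _ => insert s G)).card : ℝ) ≤ C * (((B : ℝ) - A) * VF (fun _ => insert s G) X) := h7
          _ ≤ C * (((B : ℝ) - A) * (V * V1 X * ∏ g ∈ insert 0 G, R (s - g).natAbs)) := by gcongr
          _ ≤ C * (((B : ℝ) - A) * (V * V1 X * ∑ g ∈ insert 0 G, R (s - g).natAbs ^ (r + 1))) := by gcongr
          _ = _ := by ring
      have h7 : ∑ s ∈ T, ∑ g ∈ insert 0 G, R (s - g).natAbs ^ (r + 1) ≤ 4 * Cm * (r + 1) * L := by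
        rw [sum_comm]
        calc ∑ g ∈ insert 0 G, ∑ s ∈ T, R (s - g).natAbs ^ (r + 1) ≤ ∑ g ∈ insert 0 G, 4 * Cm * M := by
              apply sum_le_sum
              intro g hg
              apply sum_shift (r + 1) hmom T g M
              · rw [mem_insert] at hg
                rcases hg with hg | hg
                · rw [hg]
                  simp
                · exact habs g (hGL g hg)
              · intro s hs
                rw [hT, mem_filter, mem_Icc] at hs
                refine ⟨abs_le.2 ⟨hs.1.1, hs.1.2⟩, ?_⟩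
                intro he
                apply hs.2.1
                rw [he]
                exact hg
          _ = ((insert 0 G : Finset ℤ).card : ℝ) * (4 * Cm * M) := by rw [sum_const, nsmul_eq_mul]
          _ ≤ ((r : ℝ) + 1) * (4 * Cm * L) := by
              have : ((insert 0 G : Finset ℤ).card : ℝ) ≤ (r : ℝ) + 1 := by exact_mod_cast hI1
              gcongr
          _ = _ := by ring
      have hX2 := hV X f3
      calc ((GoodF t X A B (fun _ => G) h0 \ Iso t X A B G h0 L).card : ℝ)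
          ≤ ∑ s ∈ T, ((SF t X A B (fun _ => insert s G)).card : ℝ) := h5
        _ ≤ ∑ s ∈ T, C * ((B : ℝ) - A) * V * V1 X * ∑ g ∈ insert 0 G, R (s - g).natAbs ^ (r + 1) := sum_le_sum h6
        _ = C * ((B : ℝ) - A) * V * V1 X * ∑ s ∈ T, ∑ g ∈ insert 0 G, R (s - g).natAbs ^ (r + 1) := by rw [mul_sum]
        _ ≤ C * ((B : ℝ) - A) * V * (Cv / Real.log X) * (4 * Cm * (r + 1) * L) := by
            have h8 : 0 ≤ ∑ s ∈ T, ∑ g ∈ insert 0 G, R (s - g).natAbs ^ (r + 1) :=
              sum_nonneg fun s _ => sum_nonneg fun g _ => by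
                have := one_le_R (s - g).natAbs
                positivity
            have h9 := (V1_pos X).le
            have h10 := hX2.2
            gcongr
        _ = E * ε * (((B : ℝ) - A) * V) := by
            rw [hE, hL]
            field_simp
        _ = c / 2 * ((B : ℝ) - A) * V := by
            rw [hε]
            field_simp
    have hcard : ((GoodF t X A B (fun _ => G) h0).card : ℝ) =
        ((GoodF t X A B (fun _ => G) h0 \ Iso t X A B G h0 L).card : ℝ) + ((Iso t X A B G h0 L).card : ℝ) := by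
      have : Iso t X A B G h0 L ⊆ GoodF t X A B (fun _ => G) h0 := by
        unfold Iso
        exact filter_subset _ _
      have := card_sdiff_add_card_eq_card this
      exact_mod_cast this.symm
    constructor
    · nlinarith [hgood, hbadc, hcard]
    · nlinarith [hgood, hbadc, hcard]
  refine ⟨t, ht, c / 2, by positivity, ε, hε0, ?_, ?_⟩
  · intro θ hθ
    obtain ⟨X₀, h⟩ := key θ hθ
    refine ⟨X₀, ?_⟩
    intro X hX G hGr hG0 hGL hloc h0 hh0 A B hBX hAB
    exact ((h X hX G hGr hG0 hGL hloc h0 hh0).2 A B hBX hAB).1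
  · intro k θ η hθ hη
    obtain ⟨X₀, h⟩ := key θ hθ
    obtain ⟨D, X₂, h2⟩ := G2 k θ (η / 2) hθ (by positivity)
    refine ⟨D, max X₀ X₂, ?_⟩
    intro X hX G hGr hG0 hGL hloc h0 hh0 A B hBX hAB S hS hSc
    obtain ⟨hsys, h3⟩ := h X ((le_max_left _ _).trans hX) G hGr hG0 hGL hloc h0 hh0
    obtain ⟨h4, h5⟩ := h3 A B hBX hAB
    apply h2 X ((le_max_right _ _).trans hX) (fun _ => G) h0 hsys A B hBX hAB S
    · refine hS.trans ?_
      unfold Iso
      exact filter_subset _ _
    · nlinarith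

end Pool.Agent.Q137.CG
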