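import Mathlib

/-!
# The moments of `n / φ(n)` on the integers up to `N`
-/

set_option autoImplicit false

namespace Pool.Agent.Q137.CG

open Finset

/-- `m / φ(m)` as a product -/
noncomputable def R (m : ℕ) : ℝ := ∏ q ∈ m.primeFactors, (1 - 1 / (q : ℝ))⁻¹

lemma one_le_inv {q : ℕ} (hq : q.Prime) : 1 ≤ (1 - 1 / (q : ℝ))⁻¹ := by
  have h1 : (1 : ℝ) < q := by exact_mod_cast hq.one_lt
  have h2 : 0 < 1 - 1 / (q : ℝ) := by
    rw [sub_pos, div_lt_one (by linarith)]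
    exact h1
  rw [one_le_inv₀ h2]
  have : 0 ≤ 1 / (q : ℝ) := by positivity
  linarith

lemma inv_le {q : ℕ} (hq : q.Prime) : (1 - 1 / (q : ℝ))⁻¹ ≤ 1 + 2 / (q : ℝ) := by
  have h1 : (2 : ℝ) ≤ q := by exact_mod_cast hq.two_le
  have h2 : 0 < 1 - 1 / (q : ℝ) := by
    rw [sub_pos, div_lt_one (by linarith)]
    linarith
  rw [inv_le_iff_one_le_mul₀ h2]
  have h3 : (1 + 2 / (q : ℝ)) * (1 - 1 / q) = 1 + (1 / q) * (1 - 2 / q) := by
    field_simp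
    ring
  rw [h3]
  have h4 : 0 ≤ 1 - 2 / (q : ℝ) := by
    rw [sub_nonneg, div_le_one (by linarith)]
    exact h1
  have : 0 ≤ (1 / (q : ℝ)) * (1 - 2 / q) := by positivity
  linarith

lemma one_le_R (m : ℕ) : 1 ≤ R m := by
  unfold R
  calc (1 : ℝ) = ∏ q ∈ m.primeFactors, (1 : ℝ) := by rw [prod_const_one]
    _ ≤ _ := Finset.prod_le_prod (fun _ _ => zero_le_one) fun q hq => one_le_inv (Nat.prime_of_mem_primeFactors hq)

lemma pow_le (k : ℕ) {x : ℝ} (h0 : 0 ≤ x) (h1 : x ≤ 1) : (1 + x) ^ k ≤ 1 + 3 ^ k * x := by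
  induction k with
  | zero => simp; linarith
  | succ n ih =>
    have h3 : (1 : ℝ) ≤ 3 ^ n := one_le_pow₀ (by norm_num)
    calc (1 + x) ^ (n + 1) = (1 + x) ^ n * (1 + x) := pow_succ _ _
      _ ≤ (1 + 3 ^ n * x) * (1 + x) := by gcongr
      _ = 1 + x + 3 ^ n * x + 3 ^ n * (x * x) := by ring
      _ ≤ 1 + 3 ^ n * x + 3 ^ n * x + 3 ^ n * (x * 1) := by
        gcongr
        nlinarith
      _ = 1 + 3 ^ (n + 1) * x := by ring

lemma R_pow_le (k m : ℕ) : R m ^ k ≤ ∏ q ∈ m.primeFactors, (1 + 2 * 3 ^ k / (q : ℝ)) := by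
  unfold R
  rw [← prod_pow]
  apply Finset.prod_le_prod
  · intro q hq
    have := one_le_inv (Nat.prime_of_mem_primeFactors hq)
    positivity
  · intro q hq
    have hqp := Nat.prime_of_mem_primeFactors hq
    have h1 : (2 : ℝ) ≤ q := by exact_mod_cast hqp.two_le
    have h0 := one_le_inv hqp
    calc ((1 - 1 / (q : ℝ))⁻¹) ^ k ≤ (1 + 2 / (q : ℝ)) ^ k := by
          apply pow_le_pow_left₀ (by linarith) (inv_le hqp)
      _ ≤ 1 + 3 ^ k * (2 / (q : ℝ)) := pow_le k (by positivity) (by rw [div_le_one (by linarith)]; exact h1)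
      _ = _ := by ring

lemma prod_le (K : ℝ) (hK : 0 ≤ K) (P : Finset ℕ) (hP : ∀ q ∈ P, 2 ≤ q) :
    ∏ q ∈ P, (1 + K / (q : ℝ) ^ 2) ≤ Real.exp K := by
  have h1 : ∏ q ∈ P, (1 + K / (q : ℝ) ^ 2) ≤ ∏ q ∈ P, Real.exp (K / (q : ℝ) ^ 2) := by
    apply Finset.prod_le_prod
    · intro q _
      positivity
    · intro q _
      have := Real.add_one_le_exp (K / (q : ℝ) ^ 2)
      linarith
  refine h1.trans ?_
  rw [← Real.exp_sum]
  apply Real.exp_le_exp.2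
  have h2 : ∑ q ∈ P, ((q : ℝ) ^ 2)⁻¹ ≤ 1 := by
    obtain ⟨N, hN⟩ : ∃ N : ℕ, N = P.sup id + 1 := ⟨_, rfl⟩
    have hsub : P ⊆ Ioc 1 N := by
      intro q hq
      rw [mem_Ioc]
      have h3 : q ≤ P.sup id := le_sup (f := id) hq
      have := hP q hq
      omega
    calc ∑ q ∈ P, ((q : ℝ) ^ 2)⁻¹ ≤ ∑ q ∈ Ioc 1 N, ((q : ℝ) ^ 2)⁻¹ :=
          sum_le_sum_of_subset_of_nonneg hsub fun _ _ _ => by positivity
      _ ≤ ((1 : ℕ) : ℝ)⁻¹ - (N : ℝ)⁻¹ := sum_Ioc_inv_sq_le_sub (by norm_num) (by omega)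
      _ ≤ 1 := by
        have : (0 : ℝ) ≤ (N : ℝ)⁻¹ := by positivity
        simp only [Nat.cast_one, inv_one]
        linarith
  calc ∑ q ∈ P, K / (q : ℝ) ^ 2 = K * ∑ q ∈ P, ((q : ℝ) ^ 2)⁻¹ := by
        rw [mul_sum]
        rfl
    _ ≤ K * 1 := by gcongr
    _ = K := mul_one K

/-- **The moments of `n / φ(n)`.** -/
theorem moment (k : ℕ) : ∃ C : ℝ, 0 < C ∧ ∀ N : ℕ, ∑ m ∈ Icc 1 N, R m ^ k ≤ C * N := by
  classical
  refine ⟨Real.exp (2 * 3 ^ k), Real.exp_pos _, ?_⟩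
  intro N
  obtain ⟨K, hK⟩ : ∃ K : ℝ, K = 2 * 3 ^ k := ⟨_, rfl⟩
  have hK0 : 0 ≤ K := by rw [hK]; positivity
  rw [← hK]
  obtain ⟨P, hP⟩ : ∃ P : Finset ℕ, P = (Icc 1 N).filter Nat.Prime := ⟨_, rfl⟩
  have hPp : ∀ q ∈ P, q.Prime := by
    intro q hq
    rw [hP, mem_filter] at hq
    exact hq.2
  have hsub : ∀ m ∈ Icc 1 N, m.primeFactors ⊆ P := by
    intro m hm q hq
    rw [mem_Icc] at hm
    have h1 := Nat.prime_of_mem_primeFactors hq
    have h2 := Nat.dvd_of_mem_primeFactors hq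
    have h3 := Nat.le_of_dvd (by omega) h2
    rw [hP, mem_filter, mem_Icc]
    exact ⟨⟨h1.pos, by omega⟩, h1⟩
  have e1 : ∀ m ∈ Icc 1 N, R m ^ k ≤ ∑ S ∈ P.powerset, if S ⊆ m.primeFactors then ∏ q ∈ S, (K / (q : ℝ)) else 0 := by
    intro m hm
    refine (R_pow_le k m).trans (le_of_eq ?_)
    rw [← hK, Finset.prod_one_add, ← sum_filter]
    apply sum_congr _ (fun _ _ => rfl)
    ext S
    rw [mem_powerset, mem_filter, mem_powerset]
    exact ⟨fun h => ⟨h.trans (hsub m hm), h⟩, fun h => h.2⟩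
  calc ∑ m ∈ Icc 1 N, R m ^ k ≤ ∑ m ∈ Icc 1 N, ∑ S ∈ P.powerset, (if S ⊆ m.primeFactors then ∏ q ∈ S, (K / (q : ℝ)) else 0) :=
        sum_le_sum e1
    _ = ∑ S ∈ P.powerset, ∑ m ∈ Icc 1 N, (if S ⊆ m.primeFactors then ∏ q ∈ S, (K / (q : ℝ)) else 0) := sum_comm
    _ ≤ ∑ S ∈ P.powerset, (N : ℝ) * ∏ q ∈ S, (K / (q : ℝ) ^ 2) := by
      apply sum_le_sum
      intro S hS
      rw [mem_powerset] at hS
      rw [← sum_filter, sum_const, nsmul_eq_mul]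
      have hS0 : 0 < ∏ q ∈ S, q := prod_pos fun q hq => (hPp q (hS hq)).pos
      have h1 : (((Icc 1 N).filter (fun m => S ⊆ m.primeFactors)).card : ℝ) ≤ N / (∏ q ∈ S, q : ℕ) := by
        have h2 : (Icc 1 N).filter (fun m => S ⊆ m.primeFactors) ⊆ (Ioc 0 N).filter (fun m => (∏ q ∈ S, q) ∣ m) := by
          intro m hm
          rw [mem_filter, mem_Icc] at hm
          rw [mem_filter, mem_Ioc]
          refine ⟨⟨by omega, hm.1.2⟩, ?_⟩
          exact (prod_dvd_prod_of_subset _ _ (fun q : ℕ => q) hm.2).trans (Nat.prod_primeFactors_dvd m)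
        have h3 := card_le_card h2
        rw [Nat.Ioc_filter_dvd_card_eq_div] at h3
        calc (((Icc 1 N).filter (fun m => S ⊆ m.primeFactors)).card : ℝ) ≤ ((N / (∏ q ∈ S, q) : ℕ) : ℝ) := by exact_mod_cast h3
          _ ≤ (N : ℝ) / ((∏ q ∈ S, q : ℕ) : ℝ) := Nat.cast_div_le
      have h4 : 0 ≤ ∏ q ∈ S, (K / (q : ℝ)) := prod_nonneg fun q _ => by positivity
      calc (((Icc 1 N).filter (fun m => S ⊆ m.primeFactors)).card : ℝ) * ∏ q ∈ S, (K / (q : ℝ))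
          ≤ (N : ℝ) / ((∏ q ∈ S, q : ℕ) : ℝ) * ∏ q ∈ S, (K / (q : ℝ)) := mul_le_mul_of_nonneg_right h1 h4
        _ = (N : ℝ) * ∏ q ∈ S, (K / (q : ℝ) ^ 2) := by
          rw [Nat.cast_prod, prod_div_distrib, prod_div_distrib, prod_pow]
          have : (0 : ℝ) < ∏ q ∈ S, (q : ℝ) := by
            rw [← Nat.cast_prod]
            exact_mod_cast hS0
          field_simp
    _ = N * ∏ q ∈ P, (1 + K / (q : ℝ) ^ 2) := by
      rw [← mul_sum, Finset.prod_one_add]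
    _ ≤ N * Real.exp K := by
      gcongr
      exact prod_le K hK0 P fun q hq => (hPp q hq).two_le
    _ = Real.exp K * N := mul_comm _ _

end Pool.Agent.Q137.CG
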