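import Pool.Agent.Q253.Thin.UpperS
import Pool.Agent.Q137.CG.Ratio

/-!
# One more shift in the sieve product
-/

set_option autoImplicit false

namespace Pool.Agent.Q137.CG

open Finset Filter
open Pool.Agent.Y840.CT (rho VF GoodF SysF Rough genF VF_low VF_mono)
open Pool.Agent.Q253.Thin (SysS SF upperS)
open Pool.Agent.Y843.HG (V1 V1_bounds)
open Pool.Agent.Y843.HS (Pr Pr_mem Pr_prime)

lemma rho_insert_mem (G : Finset ℤ) (s : ℤ) (q : ℕ) (h : ∃ g ∈ insert 0 G, (q : ℤ) ∣ s - g) : rho (insert s G) q = rho G q := by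
  classical
  obtain ⟨g, hg, hd⟩ := h
  unfold rho
  congr 1
  apply Subset.antisymm
  · intro z hz
    rw [mem_image] at hz ⊢
    obtain ⟨h, hh, rfl⟩ := hz
    rw [mem_insert, mem_insert] at hh
    rcases hh with hh | hh | hh
    · exact ⟨h, by rw [hh]; exact mem_insert_self _ _, rfl⟩
    · refine ⟨g, hg, ?_⟩
      rw [hh]
      exact ((Int.modEq_iff_dvd).2 hd)
    · exact ⟨h, mem_insert_of_mem hh, rfl⟩
  · apply image_subset_image
    exact insert_subset_insert _ (subset_insert _ _)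

lemma rho_insert_notMem (G : Finset ℤ) (s : ℤ) (q : ℕ) (h : ∀ g ∈ insert 0 G, ¬ (q : ℤ) ∣ s - g) :
    rho (insert s G) q = rho G q + 1 := by
  classical
  unfold rho
  rw [insert_comm, image_insert, card_insert_of_notMem]
  intro hcon
  rw [mem_image] at hcon
  obtain ⟨g, hg, he⟩ := hcon
  exact h g hg ((Int.modEq_iff_dvd).1 he)

lemma rho_le (G : Finset ℤ) (q : ℕ) : rho G q ≤ G.card + 1 := by
  unfold rho
  exact card_image_le.trans (card_insert_le _ _)

/-- the factor of the prime `q` -/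
noncomputable def fac (q : ℕ) (m : ℤ) : ℝ := if (q : ℤ) ∣ m then (1 - 1 / (q : ℝ))⁻¹ else 1

lemma one_le_fac {q : ℕ} (hq : q.Prime) (m : ℤ) : 1 ≤ fac q m := by
  unfold fac
  split_ifs
  · exact one_le_inv hq
  · exact le_rfl

lemma one_le_prod_fac {q : ℕ} (hq : q.Prime) (I : Finset ℤ) (s : ℤ) : 1 ≤ ∏ g ∈ I, fac q (s - g) := by
  calc (1 : ℝ) = ∏ g ∈ I, (1 : ℝ) := by rw [prod_const_one]
    _ ≤ _ := Finset.prod_le_prod (fun _ _ => zero_le_one) fun g _ => one_le_fac hq _

lemma factor (G : Finset ℤ) (s : ℤ) {q : ℕ} (hq : q.Prime) (hloc : rho G q ≤ q) :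
    1 - (rho (insert s G) q : ℝ) / q ≤
      (1 - (rho G q : ℝ) / q) * (1 - 1 / (q : ℝ)) * ∏ g ∈ insert 0 G, fac q (s - g) := by
  classical
  have hq0 : (0 : ℝ) < q := by exact_mod_cast hq.pos
  have hq1 : (1 : ℝ) < q := by exact_mod_cast hq.one_lt
  have h1 : 0 ≤ 1 - (rho G q : ℝ) / q := by
    rw [sub_nonneg, div_le_one hq0]
    exact_mod_cast hloc
  have h2 : 0 < 1 - 1 / (q : ℝ) := by
    rw [sub_pos, div_lt_one hq0]
    exact hq1
  by_cases h : ∃ g ∈ insert 0 G, (q : ℤ) ∣ s - g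
  · rw [rho_insert_mem G s q h]
    obtain ⟨g, hg, hd⟩ := h
    have h3 : (1 - 1 / (q : ℝ))⁻¹ ≤ ∏ g ∈ insert 0 G, fac q (s - g) := by
      rw [← mul_prod_erase _ _ hg]
      have h4 : fac q (s - g) = (1 - 1 / (q : ℝ))⁻¹ := by
        unfold fac
        rw [if_pos hd]
      rw [h4]
      apply le_mul_of_one_le_right (by positivity)
      exact one_le_prod_fac hq _ s
    calc 1 - (rho G q : ℝ) / q = (1 - (rho G q : ℝ) / q) * (1 - 1 / (q : ℝ)) * (1 - 1 / (q : ℝ))⁻¹ := by
          rw [mul_assoc, mul_inv_cancel₀ h2.ne', mul_one]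
      _ ≤ _ := by gcongr
  · push Not at h
    rw [rho_insert_notMem G s q h]
    have h3 := one_le_prod_fac hq (insert 0 G) s
    have h4 : 1 - ((rho G q + 1 : ℕ) : ℝ) / q ≤ (1 - (rho G q : ℝ) / q) * (1 - 1 / (q : ℝ)) := by
      push_cast
      have e : (1 - (rho G q : ℝ) / q) * (1 - 1 / (q : ℝ)) = 1 - ((rho G q : ℝ) + 1) / q + (rho G q : ℝ) / q / q := by
        field_simp
        ring
      rw [e]
      have : 0 ≤ (rho G q : ℝ) / q / q := by positivity
      linarith
    refine h4.trans ?_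
    exact le_mul_of_one_le_right (by positivity) h3

lemma prod_fac_le (X : ℕ) {m : ℤ} (hm : m ≠ 0) : ∏ q ∈ (Icc 1 X).filter Nat.Prime, fac q m ≤ R m.natAbs := by
  classical
  unfold fac R
  rw [prod_ite, prod_const_one, mul_one]
  have hs : ((Icc 1 X).filter Nat.Prime).filter (fun q : ℕ => (q : ℤ) ∣ m) ⊆ m.natAbs.primeFactors := by
    intro q hq
    rw [mem_filter, mem_filter] at hq
    rw [Nat.mem_primeFactors]
    exact ⟨hq.1.2, Int.natCast_dvd.1 hq.2, by rwa [Int.natAbs_ne_zero]⟩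
  rw [← prod_sdiff hs]
  apply le_mul_of_one_le_left
  · exact prod_nonneg fun q hq => by
      have := one_le_inv (mem_filter.1 (mem_filter.1 hq).1).2
      linarith
  · calc (1 : ℝ) = ∏ q ∈ m.natAbs.primeFactors \ ((Icc 1 X).filter Nat.Prime).filter (fun q : ℕ => (q : ℤ) ∣ m), (1 : ℝ) := by
          rw [prod_const_one]
      _ ≤ _ := Finset.prod_le_prod (fun _ _ => zero_le_one) fun q hq =>
          one_le_inv (Nat.prime_of_mem_primeFactors (mem_sdiff.1 hq).1)

/-- **One more shift.** -/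
theorem VF_insert (G : Finset ℤ) (s : ℤ) (X : ℕ) (hloc : ∀ q : ℕ, q.Prime → rho G q < q)
    (hloc' : ∀ q : ℕ, q.Prime → rho (insert s G) q < q) (hs : s ∉ insert 0 G) :
    VF (fun _ => insert s G) X ≤ VF (fun _ => G) X * V1 X * ∏ g ∈ insert 0 G, R (s - g).natAbs := by
  classical
  have e1 : V1 X = ∏ q ∈ (Icc 1 X).filter Nat.Prime, (1 - 1 / (q : ℝ)) := by
    unfold V1
    apply prod_congr _ fun _ _ => rfl
    ext q
    rw [Pr_mem, mem_filter, mem_Icc]
    constructor
    · rintro ⟨⟨a, b⟩, c⟩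
      exact ⟨⟨c.pos, b⟩, c⟩
    · rintro ⟨⟨a, b⟩, c⟩
      exact ⟨⟨c.pos, b⟩, c⟩
  rw [e1]
  unfold VF
  have h1 : ∏ q ∈ (Icc 1 X).filter Nat.Prime, (1 - (rho (insert s G) q : ℝ) / q) ≤
      ∏ q ∈ (Icc 1 X).filter Nat.Prime, ((1 - (rho G q : ℝ) / q) * (1 - 1 / (q : ℝ)) * ∏ g ∈ insert 0 G, fac q (s - g)) := by
    apply Finset.prod_le_prod
    · intro q hq
      have hqp := (mem_filter.1 hq).2
      have hq0 : (0 : ℝ) < q := by exact_mod_cast hqp.pos
      rw [sub_nonneg, div_le_one hq0]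
      exact_mod_cast (hloc' q hqp).le
    · intro q hq
      have hqp := (mem_filter.1 hq).2
      exact factor G s hqp (hloc q hqp).le
  refine h1.trans ?_
  rw [prod_mul_distrib, prod_mul_distrib, Finset.prod_comm]
  have h2 : 0 ≤ (∏ q ∈ (Icc 1 X).filter Nat.Prime, (1 - (rho G q : ℝ) / q)) * ∏ q ∈ (Icc 1 X).filter Nat.Prime, (1 - 1 / (q : ℝ)) := by
    apply mul_nonneg
    · apply prod_nonneg
      intro q hq
      have hqp := (mem_filter.1 hq).2
      have hq0 : (0 : ℝ) < q := by exact_mod_cast hqp.pos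
      rw [sub_nonneg, div_le_one hq0]
      exact_mod_cast (hloc q hqp).le
    · apply prod_nonneg
      intro q hq
      have hqp := (mem_filter.1 hq).2
      have hq0 : (0 : ℝ) < q := by exact_mod_cast hqp.pos
      rw [sub_nonneg, div_le_one hq0]
      exact_mod_cast hqp.one_lt.le
  apply mul_le_mul_of_nonneg_left _ h2
  apply Finset.prod_le_prod
  · intro g _
    exact prod_nonneg fun q hq => by
      have := one_le_fac (mem_filter.1 hq).2 (s - g)
      linarith
  · intro g hg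
    apply prod_fac_le
    intro h
    apply hs
    have : s = g := by omega
    rw [this]
    exact hg

end Pool.Agent.Q137.CG
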