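import Pool.Agent.Q137.CG.Main

/-!
# Two elements: the singular series
-/

set_option autoImplicit false

namespace Pool.Agent.Q137.CG

open Finset Filter
open Pool.Agent.Y840.CT (rho VF VF_low)

/-- the product of `(q - 1)/(q - 2)` over the odd prime divisors of `d` -/
noncomputable def SS (d : ℕ) : ℝ := ∏ q ∈ d.primeFactors.erase 2, (((q : ℝ) - 1) / (q - 2))

lemma rho_one {h : ℤ} {q : ℕ} (hd : (q : ℤ) ∣ h) : rho {h} q = 1 := by
  unfold rho
  rw [card_eq_one]
  refine ⟨0, ?_⟩
  ext z
  rw [mem_image, mem_singleton]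
  constructor
  · rintro ⟨x, hx, rfl⟩
    rw [mem_insert, mem_singleton] at hx
    rcases hx with hx | hx
    · rw [hx, Int.zero_emod]
    · rw [hx]
      exact Int.emod_eq_zero_of_dvd hd
  · rintro rfl
    exact ⟨0, mem_insert_self _ _, Int.zero_emod _⟩

lemma rho_two {h : ℤ} {q : ℕ} (hd : ¬ (q : ℤ) ∣ h) : rho {h} q = 2 := by
  unfold rho
  rw [image_insert, image_singleton, card_pair]
  intro he
  rw [Int.zero_emod] at he
  exact hd (Int.dvd_of_emod_eq_zero he.symm)

lemma rho_even {h : ℤ} (hh : (2 : ℤ) ∣ h) (q : ℕ) (hq : q.Prime) : rho {h} q < q := by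
  by_cases hd : (q : ℤ) ∣ h
  · rw [rho_one hd]
    exact hq.one_lt
  · rw [rho_two hd]
    rcases Nat.lt_or_ge 2 q with h2 | h2
    · exact h2
    · exfalso
      have : q = 2 := le_antisymm h2 hq.two_le
      apply hd
      rw [this]
      exact hh

/-- the sieve product for two elements -/
theorem VF_two : ∃ c : ℝ, 0 < c ∧ ∀ X : ℕ, 2 ≤ X → ∀ d : ℕ, 0 < d → d ≤ X → Even d → ∀ h : ℤ, h.natAbs = d →
    c * SS d / Real.log X ^ 2 ≤ VF (fun _ => {h}) X := by
  classical
  obtain ⟨c, hc, hlow⟩ := VF_low 1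
  refine ⟨c, hc, ?_⟩
  intro X hX d hd0 hdX hd h hh
  obtain ⟨F, hF⟩ : ∃ F : ℕ → Finset ℤ, F = fun q => if q = 2 then {2} else {1} := ⟨_, rfl⟩
  have h2h : (2 : ℤ) ∣ h := by
    have h1 : 2 ∣ h.natAbs := by
      rw [hh]
      exact hd.two_dvd
    exact Int.natCast_dvd.2 h1
  have hrF2 : rho (F 2) 2 = 1 := by
    rw [hF]
    simp only [if_true]
    exact rho_one (by norm_num)
  have hrF : ∀ q : ℕ, q.Prime → q ≠ 2 → rho (F q) q = 2 := by
    intro q hq hq2
    rw [hF]
    simp only [if_neg hq2]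
    apply rho_two
    intro hcon
    have h1 : q ∣ 1 := by exact_mod_cast hcon
    exact hq.one_lt.ne' (Nat.dvd_one.1 h1)
  have h1 := hlow X hX F (by
    intro q _
    rw [hF]
    simp only
    split_ifs <;> simp) (by
    intro q hq
    by_cases hq2 : q = 2
    · rw [hq2, hrF2]
      norm_num
    · rw [hrF q hq hq2]
      have := hq.two_le
      omega)
  have hprod : VF (fun _ => {h}) X = VF F X * SS d := by
    unfold VF SS
    have hsub : d.primeFactors.erase 2 ⊆ (Icc 1 X).filter Nat.Prime := by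
      intro q hq
      rw [mem_erase] at hq
      have h3 := Nat.prime_of_mem_primeFactors hq.2
      have h4 := Nat.le_of_dvd hd0 (Nat.dvd_of_mem_primeFactors hq.2)
      rw [mem_filter, mem_Icc]
      exact ⟨⟨h3.pos, by omega⟩, h3⟩
    have h5 : ∏ q ∈ d.primeFactors.erase 2, (((q : ℝ) - 1) / (q - 2)) =
        ∏ q ∈ (Icc 1 X).filter Nat.Prime, if q ∈ d.primeFactors.erase 2 then (((q : ℝ) - 1) / (q - 2)) else 1 := by
      rw [prod_ite_mem, inter_eq_right.2 hsub]
    rw [h5, ← prod_mul_distrib]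
    apply prod_congr rfl
    intro q hq
    rw [mem_filter] at hq
    have hqp := hq.2
    have hq0 : (0 : ℝ) < q := by exact_mod_cast hqp.pos
    by_cases hq2 : q = 2
    · subst hq2
      rw [hrF2, rho_one (q := 2) (by exact_mod_cast h2h), if_neg (notMem_erase _ _), mul_one]
    · have hq3 : (2 : ℝ) < q := by
        have := hqp.two_le
        exact_mod_cast (by omega : 2 < q)
      rw [hrF q hqp hq2]
      by_cases hqd : q ∣ d
      · have hqh : (q : ℤ) ∣ h := by
          apply Int.natCast_dvd.2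
          rwa [hh]
        rw [rho_one hqh, if_pos (mem_erase.2 ⟨hq2, Nat.mem_primeFactors.2 ⟨hqp, hqd, by omega⟩⟩)]
        have : (q : ℝ) - 2 ≠ 0 := by
          have : (0 : ℝ) < q - 2 := by linarith
          exact this.ne'
        push_cast
        field_simp
      · have hqh : ¬ (q : ℤ) ∣ h := by
          intro hcon
          apply hqd
          rw [← hh]
          exact Int.natCast_dvd.1 hcon
        rw [rho_two hqh, if_neg (fun hcon => hqd (Nat.dvd_of_mem_primeFactors (mem_erase.1 hcon).2)), mul_one]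
  have hS0 : 0 ≤ SS d := by
    unfold SS
    apply prod_nonneg
    intro q hq
    rw [mem_erase] at hq
    have h3 := Nat.prime_of_mem_primeFactors hq.2
    have : (2 : ℝ) < q := by
      have := h3.two_le
      have := hq.1
      exact_mod_cast (by omega : 2 < q)
    apply div_nonneg <;> linarith
  rw [hprod]
  calc c * SS d / Real.log X ^ 2 = c / Real.log X ^ (1 + 1) * SS d := by ring
    _ ≤ _ := mul_le_mul_of_nonneg_right h1 hS0

end Pool.Agent.Q137.CG
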